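import Pool.Agent.PSS.StmtsOB
import Pool.Agent.Helper7_PSS.TLF

/-!
# Squad PSS, row TLW (helper58): a deformation of the special fibre with regular first order term lifts
-/

open scoped BigOperators TensorProduct

noncomputable section

namespace Pool.Agent.PSS.H58

open Pool.Agent.PFD.D2 (Cdv FibG)
open Pool.Agent.PFD.D2b (FrR)
open Finset

theorem tlw (hTRX : TrxStmt) (hTRC : TrcStmt) (hLIM : LimStmt) (hBIA : BiaStmt)
    (hMUB : MubStmt) (hTGT : TgtStmt) (hFZ0 : Fz0Stmt) (hSTX : StxStmt) : TlwStmt := by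
  intro R K F V E A A₀ B κ Ω _ _ _ _ _ _ _ _ _ _ _ _ _ _ _ _ _ _ _ _ _ φ W α lam x y b c C u cv f
    α₀ c₀ D₀ hWs hs hu hq hc hform key
  have hπ : cv.π ≠ 0 := by
    intro h
    have := cv.reg 1 (by rw [h, zero_mul])
    exact one_ne_zero this
  have hp0 : algebraMap R K cv.π ≠ 0 := by
    intro h
    refine hπ (C.rinj ?_)
    rw [map_zero]
    exact h
  obtain ⟨P, m, hT, -, hI⟩ := Pool.Agent.PSS.H7.limTrv (β := ia C.i α) (W := W)
    (I := fun n μ => ∀ a₁ a₂, ∃ e, C.i e = μ (C.i a₁) (C.i a₂) ∧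
      f.q e = D₀.m n (f.q a₁) (f.q a₂)) hTRX hTRC hLIM 0
    (fun _ => (LinearMap.id, LinearMap.mul K B))
    { p0 := rfl
      pw := fun n _ w _ x => ⟨rfl, rfl⟩
      p1 := fun n hn => absurd hn (by omega)
      pm := fun n hn x y => by
        obtain rfl : n = 0 := by omega
        simp
      int := fun n hn a₁ a₂ => by
        obtain rfl : n = 0 := by omega
        refine ⟨a₁ * a₂, ?_, ?_⟩
        · rw [map_mul]
          rfl
        · rw [map_mul, D₀.m0] }
    (fun P m N _ hT hI => by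
      obtain ⟨μ, hμ1, hμ2, hμ3⟩ := hMUB R K F V A A₀ B κ Ω W α lam x y b c C cv f α₀ D₀ N hq
      have hcc : ∀ u v, algebraMap R K cv.π • ((algebraMap R K cv.π)⁻¹ • (m (N + 1) - μ) :
          B →ₗ[K] B →ₗ[K] B) u v = m (N + 1) u v - μ u v := by
        intro u v
        show algebraMap R K cv.π • ((algebraMap R K cv.π)⁻¹ • (m (N + 1) u v - μ u v)) = _
        rw [smul_smul, mul_inv_cancel₀ hp0, one_smul]
      obtain ⟨hZ, hB⟩ := hTGT R K F V A A₀ B κ Ω W α lam x y b c C cv f α₀ D₀ hq P m N μ _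
        hT hI hμ1 hμ2 hμ3 hcc
      refine hSTX R K F V E A A₀ B κ Ω φ W α lam x y b c C u cv f α₀ D₀ hWs hs hu hq P m N μ _
        hT hI hμ3 hcc hZ ?_
      rcases Nat.eq_zero_or_pos N with hN | hN
      · subst hN
        exact hFZ0 R K F V A A₀ B κ Ω W α lam x y b c C cv f α₀ c₀ D₀ hq hc hform P m μ _ hT
          hμ3 hcc
      · obtain ⟨-, -, hd⟩ := hBIA R K V A B κ Ω W α lam x y b c C P m N hT
          (fun n hn a₁ a₂ => by
            obtain ⟨e, he, -⟩ := hI n hn a₁ a₂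
            exact ⟨e, he⟩)
        exact key (P 1) (m 1) _ (hT.pw 1) (hT.p1 0) hd (hI 1 hN) hZ (hB hN))
  exact ⟨P, m, hT, hI⟩

end Pool.Agent.PSS.H58
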